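import Pool.Agent.Helper35.AM.Co
import Pool.Agent.Helper35.KL.As.N

/-!
# The reduction to irreducible Coxeter groups without infinite bonds
-/

namespace Pool.Agent.Helper10.AM

open Pool.Agent.Helper35.KL Pool.Agent.Helper35.AM

/-- The set `T` of generators is irreducible: it is not a union of two nonempty disjoint sets such
that every generator of the first commutes with every generator of the second. -/
def Irred {B : Type} (M : CoxeterMatrix B) (T : Set B) : Prop :=
  ∀ J ⊆ T, J.Nonempty → (T \ J).Nonempty → ∃ s ∈ J, ∃ t ∈ T \ J, M s t ≠ 2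

/-- The orders of the products of two generators in `T` are finite. -/
def TwoSpherical {B : Type} (M : CoxeterMatrix B) (T : Set B) : Prop :=
  ∀ s ∈ T, ∀ t ∈ T, M s t ≠ 0

section res

variable {B : Type} {M : CoxeterMatrix B} {L : M.Group → ℤ}

theorem isWeight_res (hL : IsWeight M L) (I : Set B) : IsWeight (res M I) (resL L I) :=
  isWeight_par (isPar_inc M I) hL

theorem lusztig_res (hL : IsWeight M L) (h : Lusztig M L) (I : Set B) :
    Lusztig (res M I) (resL L I) :=
  lusztig_par (isPar_inc M I) hL h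

/-- Amalgams over parabolic subgroups. -/
theorem lusztig_amalgam (hL : IsWeight M L) (J K : Set B) (hJK : J ∪ K = Set.univ)
    (h : ∀ s ∈ J \ K, ∀ t ∈ K \ J, M s t = 0) :
    Lusztig M L ↔ Lusztig (res M J) (resL L J) ∧ Lusztig (res M K) (resL L K) := by
  constructor
  · intro h1
    exact ⟨lusztig_res hL h1 J, lusztig_res hL h1 K⟩
  · rintro ⟨h1, h2⟩
    let P : Bool → Set B := fun i => match i with
      | true => J
      | false => K
    have hA : Am M P := by
      refine ⟨fun b => ?_, fun b c h3 h4 h5 h6 => h b ⟨h3, h4⟩ c ⟨h5, h6⟩⟩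
      have h3 : b ∈ J ∪ K := by
        rw [hJK]
        exact Set.mem_univ b
      exact h3
    refine lusztig_am hA hL fun i => ?_
    cases i
    · exact h2
    · exact h1

/-- The restriction to a smaller set of generators, in two steps. -/
theorem lusztig_res_res (hL : IsWeight M L) {I J : Set B} (hJI : J ⊆ I)
    (h : Lusztig (res M J) (resL L J)) :
    Lusztig (res (res M I) (Subtype.val ⁻¹' J)) (resL (resL L I) (Subtype.val ⁻¹' J)) := by
  let e : J ≃ ↥((Subtype.val : I → B) ⁻¹' J) :=
    { toFun := fun x => ⟨⟨x.1, hJI x.2⟩, x.2⟩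
      invFun := fun x => ⟨x.1.1, x.2⟩
      left_inv := fun x => rfl
      right_inv := fun x => rfl }
  have he : ∀ a b, res (res M I) (Subtype.val ⁻¹' J) (e a) (e b) = res M J a b := fun _ _ => rfl
  refine lusztig_of_equiv (M := res M J) e he (isWeight_res (isWeight_res hL I) _) ?_
  intro _
  have h1 : (fun w => resL (resL L I) (Subtype.val ⁻¹' J) (gmap e he w)) = resL L J := by
    funext w
    have h2 := gmap_comp (M₁ := res M J) (M₂ := res (res M I) (Subtype.val ⁻¹' J))
      (M₃ := res M I) e (Subtype.val : ↥((Subtype.val : I → B) ⁻¹' J) → I) he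
      (fun _ _ => rfl) (fun _ _ => rfl) w
    have h3 := gmap_comp (M₁ := res M J) (M₂ := res M I) (M₃ := M)
      (fun a : J => (⟨a.1, hJI a.2⟩ : I)) (Subtype.val : I → B) (fun _ _ => rfl)
      (fun _ _ => rfl) (fun _ _ => rfl) w
    change L (gmap (Subtype.val : I → B) (fun _ _ => rfl)
      (gmap (Subtype.val : ↥((Subtype.val : I → B) ⁻¹' J) → I) (fun _ _ => rfl)
        (gmap e he w))) = L (gmap (Subtype.val : J → B) (fun _ _ => rfl) w)
    rw [h2]
    exact congrArg L h3
  rw [h1]
  exact h

theorem lusztig_of_univ (hL : IsWeight M L) (h : Lusztig (res M Set.univ) (resL L Set.univ)) :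
    Lusztig M L :=
  lusztig_univ M L hL fun _ => h

/-- Direct products: two commuting sets of generators. -/
theorem lusztig_dir (hL : IsWeight M L) {I J : Set B} (hJI : J ⊆ I)
    (h : ∀ s ∈ J, ∀ t ∈ I \ J, M s t = 2) (h1 : Lusztig (res M J) (resL L J))
    (h2 : Lusztig (res M (I \ J)) (resL L (I \ J))) : Lusztig (res M I) (resL L I) := by
  refine lusztig_prod (res M I) (Set.inclusion hJI) (Set.inclusion Set.sdiff_subset)
    (Set.inclusion_injective _) (Set.inclusion_injective _) ?_ ?_ ?_ (isWeight_res hL I)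
    (built_step hJI fun _ => h1) (built_step Set.sdiff_subset fun _ => h2)
  · rintro ⟨b, hb⟩
    by_cases hb2 : b ∈ J
    · exact Or.inl ⟨⟨b, hb2⟩, rfl⟩
    · exact Or.inr ⟨⟨b, hb, hb2⟩, rfl⟩
  · rintro ⟨a, ha⟩ ⟨b, hb⟩ hab
    have h3 : a = b := congrArg Subtype.val hab
    exact hb.2 (h3 ▸ ha)
  · intro a b
    exact h _ a.2 _ b.2

/-- The reduction, for the parabolic subgroups. -/
theorem lusztig_reduce_aux [Finite B] (hL : IsWeight M L)
    (h : ∀ T : Set B, 3 ≤ T.encard → TwoSpherical M T → Irred M T →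
      Lusztig (res M T) (resL L T)) (n : ℕ) :
    ∀ I : Set B, I.ncard = n → Lusztig (res M I) (resL L I) := by
  induction n using Nat.strong_induction_on with
  | _ n ih =>
    intro I hI
    have hfin : I.Finite := Set.toFinite I
    by_cases h2 : TwoSpherical M I
    · by_cases h3 : Irred M I
      · by_cases h4 : 3 ≤ I.encard
        · exact h I h4 h2 h3
        · refine lusztig_small I ?_ (isWeight_res hL I)
          rw [not_le] at h4
          exact Order.le_of_lt_add_one (by
            have h5 : (2 : ℕ∞) + 1 = 3 := by norm_num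
            rw [h5]
            exact h4)
      · unfold Irred at h3
        push Not at h3
        obtain ⟨J, hJI, hJ1, hJ2, hJ3⟩ := h3
        have c1 : J.ncard < n := by
          rw [← hI]
          refine Set.ncard_lt_ncard ⟨hJI, fun h5 => ?_⟩ hfin
          obtain ⟨x, hx⟩ := hJ2
          exact hx.2 (h5 hx.1)
        have c2 : (I \ J).ncard < n := by
          rw [← hI]
          refine Set.ncard_lt_ncard ⟨Set.sdiff_subset, fun h5 => ?_⟩ hfin
          obtain ⟨x, hx⟩ := hJ1
          exact (h5 (hJI hx)).2 hx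
        exact lusztig_dir hL hJI hJ3 (ih _ c1 _ rfl) (ih _ c2 _ rfl)
    · unfold TwoSpherical at h2
      push Not at h2
      obtain ⟨s, hs, t, ht, hst⟩ := h2
      have hne : s ≠ t := by
        intro h5
        rw [h5, M.diagonal] at hst
        exact one_ne_zero hst
      have c1 : (I \ {t}).ncard < n := by
        rw [← hI]
        exact Set.ncard_sdiff_singleton_lt_of_mem ht hfin
      have c2 : (I \ {s}).ncard < n := by
        rw [← hI]
        exact Set.ncard_sdiff_singleton_lt_of_mem hs hfin
      refine (lusztig_amalgam (isWeight_res hL I) (Subtype.val ⁻¹' (I \ {t}))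
        (Subtype.val ⁻¹' (I \ {s})) ?_ ?_).2
        ⟨lusztig_res_res hL Set.sdiff_subset (ih _ c1 _ rfl),
          lusztig_res_res hL Set.sdiff_subset (ih _ c2 _ rfl)⟩
      · refine Set.eq_univ_of_forall fun x => ?_
        by_cases hx : x.1 = t
        · exact Or.inr ⟨x.2, fun hx2 => hne (hx2.symm.trans hx)⟩
        · exact Or.inl ⟨x.2, hx⟩
      · intro x hx y hy
        have h5 : x.1 = s := by
          by_contra hc
          exact hx.2 ⟨x.2, hc⟩
        have h6 : y.1 = t := by
          by_contra hc
          exact hy.2 ⟨y.2, hc⟩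
        change M x.1 y.1 = 0
        rw [h5, h6]
        exact hst

/-- The reduction to irreducible groups of rank at least three without infinite bonds. -/
theorem lusztig_reduce [Finite B] (hL : IsWeight M L) :
    Lusztig M L ↔ ∀ T : Set B, 3 ≤ T.encard → TwoSpherical M T → Irred M T →
      Lusztig (res M T) (resL L T) :=
  ⟨fun h T _ _ _ => lusztig_res hL h T,
    fun h => lusztig_of_univ hL (lusztig_reduce_aux hL h _ Set.univ rfl)⟩

/-- Boundedness is inherited by parabolic subgroups and does not depend on the Hecke algebra. -/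
theorem bounded_res {H : Type} [Ring H] [Algebra LP H] {D : KLD M L H}
    (hb : D.Bounded) (I : Set B) {H' : Type} [Ring H'] [Algebra LP H']
    (D' : KLD (res M I) (resL L I) H') : D'.Bounded := by
  obtain ⟨N, hN⟩ := hb
  refine ⟨N, fun x y z => ?_⟩
  have h1 := KLD.h_iso (Dp (isPar_inc M I) D) D' (MulEquiv.refl _) (Equiv.refl _)
    (fun b => rfl) (fun w => rfl) x y z
  have h2 : D'.h x y z = D.h (inc M I x) (inc M I y) (inc M I z) :=
    h1.trans (h_par (isPar_inc M I) D x y z)
  rw [h2]
  exact hN _ _ _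

/-- A set of at least three generators that is irreducible contains three distinct generators
`r`, `s`, `t` such that `s` commutes with neither `r` nor `t`. -/
theorem exists_three {T : Set B} (hT : 3 ≤ T.encard) (hi : Irred M T) :
    ∃ r ∈ T, ∃ s ∈ T, ∃ t ∈ T, r ≠ s ∧ s ≠ t ∧ r ≠ t ∧ M r s ≠ 2 ∧ M s t ≠ 2 := by
  have hne : T.Nonempty := by
    rw [Set.nonempty_iff_ne_empty]
    intro h
    rw [h, Set.encard_empty] at hT
    exact absurd hT (by decide)
  obtain ⟨a, ha⟩ := hne
  have h1 : (T \ {a}).Nonempty := by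
    rw [Set.nonempty_iff_ne_empty]
    intro h
    have h2 : T ⊆ {a} := Set.sdiff_eq_empty.1 h
    have h3 := Set.encard_le_encard h2
    rw [Set.encard_singleton] at h3
    exact absurd (hT.trans h3) (by decide)
  obtain ⟨a', ha', b, hb, hab⟩ := hi {a} (Set.singleton_subset_iff.2 ha)
    (Set.singleton_nonempty a) h1
  have haa : a' = a := ha'
  rw [haa] at hab
  have hba : b ≠ a := fun h => hb.2 h
  have h2 : (T \ {a, b}).Nonempty := by
    rw [Set.nonempty_iff_ne_empty]
    intro h
    have h2 : T ⊆ {a, b} := Set.sdiff_eq_empty.1 h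
    have h3 := Set.encard_le_encard h2
    have h4 := h3.trans (Set.encard_insert_le {b} a)
    rw [Set.encard_singleton] at h4
    exact absurd (hT.trans h4) (by decide)
  obtain ⟨c, hc, d, hd, hcd⟩ := hi {a, b} (by
    rintro x (hx | hx)
    · rw [hx]
      exact ha
    · have hx' : x = b := hx
      rw [hx']
      exact hb.1) ⟨a, Or.inl rfl⟩ h2
  have hda : d ≠ a := fun h => hd.2 (Or.inl h)
  have hdb : d ≠ b := fun h => hd.2 (Or.inr h)
  rcases hc with hc | hc
  · rw [hc] at hcd
    refine ⟨b, hb.1, a, ha, d, hd.1, hba, fun h => hda h.symm, fun h => hdb h.symm, ?_, hcd⟩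
    rw [M.symmetric]
    exact hab
  · have hc' : c = b := hc
    rw [hc'] at hcd
    exact ⟨a, ha, b, hb.1, d, hd.1, fun h => hba h.symm, fun h => hdb h.symm,
      fun h => hda h.symm, hab, hcd⟩

/-- Groups all of whose irreducible parabolic subgroups without infinite bonds have rank at most
two. -/
theorem lusztig_class [Finite B] (hL : IsWeight M L)
    (h : ∀ r s t : B, r ≠ s → s ≠ t → r ≠ t → M r s ≠ 0 → M s t ≠ 0 → M r t ≠ 0 →
      M r s = 2 ∨ M s t = 2) : Lusztig M L := by
  refine (lusztig_reduce hL).2 fun T hT h2 hi => ?_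
  exfalso
  obtain ⟨r, hr, s, hs, t, ht, h3, h4, h5, h6, h7⟩ := exists_three hT hi
  rcases h r s t h3 h4 h5 (h2 r hr s hs) (h2 s hs t ht) (h2 r hr t ht) with h8 | h8
  · exact h6 h8
  · exact h7 h8

end res

/-- The question for all groups follows from the question for irreducible groups of rank at least
three without infinite bonds. -/
theorem question_reduce
    (hq : ∀ (B : Type) [Finite B] (M : CoxeterMatrix B) (L : M.Group → ℤ), IsWeight M L →
      3 ≤ (Set.univ : Set B).encard → TwoSpherical M Set.univ → Irred M Set.univ →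
      ∀ (H : Type) [Ring H] [Algebra LP H] (D : KLD M L H), D.Bounded → D.Lus)
    (B : Type) [Finite B] (M : CoxeterMatrix B) (L : M.Group → ℤ) (hL : IsWeight M L)
    (H : Type) [Ring H] [Algebra LP H] (D : KLD M L H) (hb : D.Bounded) : D.Lus := by
  refine (((lusztig_reduce hL).2 fun T hT h2 hi => ?_) H D).2
  intro H' _ _ D'
  have hb' : D'.Bounded := bounded_res hb T D'
  refine ⟨hb', hq T (res M T) (resL L T) (isWeight_res hL T) ?_ ?_ ?_ H' D' hb'⟩
  · rw [Set.encard_univ]
    exact hT
  · intro s _ t _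
    exact h2 s.1 s.2 t.1 t.2
  · intro J _ hJ1 hJ2
    obtain ⟨s, hs, t, ht, hst⟩ := hi (Subtype.val '' J) (by
      rintro _ ⟨x, -, rfl⟩
      exact x.2) (hJ1.image _) (by
      obtain ⟨x, hx⟩ := hJ2
      refine ⟨x.1, x.2, ?_⟩
      rintro ⟨y, hy, hxy⟩
      rw [Subtype.val_injective hxy] at hy
      exact hx.2 hy)
    obtain ⟨s', hs', rfl⟩ := hs
    refine ⟨s', hs', ⟨t, ht.1⟩, ⟨Set.mem_univ _, fun h5 => ht.2 ⟨_, h5, rfl⟩⟩, hst⟩

end Pool.Agent.Helper10.AM
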